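import Pool.Agent.H48.RN.Stmts2

/-!
# Project RN, module INV: invariant functions are polynomials in `x`
-/

set_option autoImplicit false
set_option linter.unusedSectionVars false
set_option linter.unusedVariables false

namespace Pool.RN

open Polynomial

variable {F k : Type} [Field F] [Fintype F] [Field k] [Algebra F k]

theorem INV_xx_mem : xx F k ∈ KK F k := IntermediateField.mem_adjoin_simple_self k (xx F k)

/-- polynomials in `x` form an integrally closed ring -/
theorem INV_closed (hTRX : S_TRX F k) : IsIntegrallyClosed (Algebra.adjoin k {xx F k}) := by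
  have hinj : Function.Injective (aeval (xx F k) : k[X] →ₐ[k] EE k) := by
    rw [injective_iff_map_eq_zero]
    intro p hp
    by_contra hne
    exact (hTRX p hne).1 hp
  have e1 : k[X] ≃ₐ[k] (aeval (xx F k) : k[X] →ₐ[k] EE k).range := AlgEquiv.ofInjective _ hinj
  have e2 : (aeval (xx F k) : k[X] →ₐ[k] EE k).range ≃ₐ[k] Algebra.adjoin k {xx F k} :=
    Subalgebra.equivOfEq _ _ (Algebra.adjoin_singleton_eq_range_aeval k (xx F k)).symm
  exact IsIntegrallyClosed.of_equiv (e1.trans e2).toRingEquiv

open scoped IntermediateField.algebraAdjoinAdjoin in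
/-- integral elements of `k(x)` are polynomials -/
theorem INV_pol (hTRX : S_TRX F k) (z : EE k) (hz : z ∈ IntermediateField.adjoin k {xx F k})
    (hi : IsIntegral (Algebra.adjoin k {xx F k}) z) : ∃ p : k[X], z = aeval (xx F k) p := by
  have hc := INV_closed hTRX
  have h1 : IsIntegral (Algebra.adjoin k {xx F k})
      (⟨z, hz⟩ : IntermediateField.adjoin k {xx F k}) := by
    have hinj : Function.Injective
        (algebraMap (IntermediateField.adjoin k {xx F k}) (EE k)) := Subtype.val_injective
    exact (isIntegral_algebraMap_iff (R := Algebra.adjoin k {xx F k})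
      (A := IntermediateField.adjoin k {xx F k}) (B := EE k) hinj).1 hi
  obtain ⟨a, ha⟩ := (IsIntegrallyClosed.isIntegral_iff (R := Algebra.adjoin k {xx F k})
    (K := IntermediateField.adjoin k {xx F k})).1 h1
  have h2 : (a : EE k) = z := congrArg Subtype.val ha
  have h3 : z ∈ Algebra.adjoin k {xx F k} := by
    rw [← h2]
    exact a.2
  rw [Algebra.adjoin_singleton_eq_range_aeval] at h3
  obtain ⟨p, hp⟩ := h3
  exact ⟨p, hp.symm⟩

theorem INV_int (Y : (EE k)[X]) (hINT : S_INT F Y) (m : ℕ) (P : PP k m) :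
    IsIntegral (Algebra.adjoin k {xx F k}) (ev m (xx F k) Y P) := by
  induction P using MvPolynomial.induction_on with
  | C a =>
    have h : ev (k := k) m (xx F k) Y (MvPolynomial.C a) = algebraMap k (EE k) a := by
      unfold ev
      rw [MvPolynomial.aeval_C]
    rw [h]
    have h2 : algebraMap k (EE k) a = algebraMap (Algebra.adjoin k {xx F k}) (EE k)
      (algebraMap k _ a) := rfl
    rw [h2]
    exact isIntegral_algebraMap
  | add p q hp hq => rw [map_add]; exact hp.add hq
  | mul_X p n hp =>
    rw [map_mul]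
    refine hp.mul ?_
    unfold ev
    rw [MvPolynomial.aeval_X]
    cases n with
    | none =>
      have h2 : xx F k = algebraMap (Algebra.adjoin k {xx F k}) (EE k)
        ⟨xx F k, Algebra.self_mem_adjoin_singleton k _⟩ := rfl
      change IsIntegral _ (xx F k)
      rw [h2]
      exact isIntegral_algebraMap
    | some i => exact hINT i

/-- the coordinates in `LL` -/
noncomputable def INV_y (F : Type) [Field F] [Fintype F] {k : Type} [Field k] (Y : (EE k)[X])
    (i : ℕ) : LL F Y :=
  ⟨Y.coeff i, IntermediateField.subset_adjoin _ _ ⟨i, rfl⟩⟩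

/-- `x` in `LL` -/
noncomputable def INV_x (F : Type) [Field F] [Fintype F] {k : Type} [Field k] [Algebra F k]
    (Y : (EE k)[X]) : LL F Y :=
  algebraMap (KK F k) (LL F Y) ⟨xx F k, INV_xx_mem⟩

/-- evaluation in `LL` -/
noncomputable def INV_ev (F : Type) [Field F] [Fintype F] {k : Type} [Field k] [Algebra F k]
    (m : ℕ) (Y : (EE k)[X]) : PP k m →ₐ[k] LL F Y :=
  MvPolynomial.aeval (fun o : Option (Fin m) => o.elim (INV_x F Y) (fun i => INV_y F Y i))

theorem INV_ev_gal (M : F[X]) (Y : (EE k)[X]) (g : F[X])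
    (τ : LL F Y ≃ₐ[KK F k] LL F Y)
    (hτ : ∀ i, ((τ (INV_y F Y i) : LL F Y) : EE k) = (act M g Y).coeff i) (P : PP k M.natDegree) :
    ((τ (INV_ev F M.natDegree Y P) : LL F Y) : EE k) =
      ev M.natDegree (xx F k) (act M g Y) P := by
  induction P using MvPolynomial.induction_on with
  | C a =>
    unfold INV_ev ev
    rw [MvPolynomial.aeval_C, MvPolynomial.aeval_C]
    have h1 : algebraMap k (LL F Y) a = algebraMap (KK F k) (LL F Y) (algebraMap k (KK F k) a) :=
      rfl
    rw [h1, AlgEquiv.commutes]
    rfl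
  | add p q hp hq =>
    rw [map_add, map_add, map_add, ← hp, ← hq]
    rfl
  | mul_X p n hp =>
    rw [map_mul, map_mul, map_mul, ← hp]
    have h1 : ((τ (INV_ev F M.natDegree Y (MvPolynomial.X n)) : LL F Y) : EE k) =
        ev M.natDegree (xx F k) (act M g Y) (MvPolynomial.X n : PP k M.natDegree) := by
      unfold INV_ev ev
      rw [MvPolynomial.aeval_X, MvPolynomial.aeval_X]
      cases n with
      | none =>
        change ((τ (INV_x F Y) : LL F Y) : EE k) = xx F k
        unfold INV_x
        rw [AlgEquiv.commutes]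
        rfl
      | some i => exact hτ i
    rw [← h1]
    rfl

theorem INV_ev_id (m : ℕ) (Y : (EE k)[X]) (P : PP k m) :
    ((INV_ev F m Y P : LL F Y) : EE k) = ev m (xx F k) Y P := by
  induction P using MvPolynomial.induction_on with
  | C a =>
    unfold INV_ev ev
    rw [MvPolynomial.aeval_C, MvPolynomial.aeval_C]
    rfl
  | add p q hp hq =>
    rw [map_add, map_add, ← hp, ← hq]
    rfl
  | mul_X p n hp =>
    rw [map_mul, map_mul, ← hp]
    have h1 : ((INV_ev F m Y (MvPolynomial.X n) : LL F Y) : EE k) =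
        ev m (xx F k) Y (MvPolynomial.X n : PP k m) := by
      unfold INV_ev ev
      rw [MvPolynomial.aeval_X, MvPolynomial.aeval_X]
      cases n with
      | none => rfl
      | some i => rfl
    rw [← h1]
    rfl

theorem s_INV {F k : Type} [Field F] [Fintype F] [Field k] [Algebra F k] [IsAlgClosed k]
    [Algebra.IsAlgebraic F k] (M : F[X]) (Y : (EE k)[X]) (hM : M.Monic) (hm : 1 ≤ M.natDegree) (hY : Good M Y)
    (hHGL : S_HGL M Y) (hFDL : S_FDL F Y) (hNOR : S_NOR F Y) (hSEP : S_SEP F Y) (hINT : S_INT F Y) (hEVA : S_EVA F k) (hTRX : S_TRX F k) : S_INV M Y := by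
  intro P hP
  have h1 : FiniteDimensional (KK F k) (LL F Y) := hFDL
  have h2 : Normal (KK F k) (LL F Y) := hNOR
  have h3 : Algebra.IsSeparable (KK F k) (LL F Y) := hSEP
  have h4 : IsGalois (KK F k) (LL F Y) := {}
  have h5 : INV_ev F M.natDegree Y P ∈ Set.range (algebraMap (KK F k) (LL F Y)) := by
    rw [IsGalois.mem_range_algebraMap_iff_fixed]
    intro τ
    obtain ⟨g, hg, hτ⟩ := hHGL.1 τ
    apply Subtype.val_injective
    rw [INV_ev_gal M Y g τ (fun i => hτ i _) P, INV_ev_id]
    exact hP g hg
  obtain ⟨z, hz⟩ := h5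
  have h6 : (z : EE k) = ev M.natDegree (xx F k) Y P := by
    rw [← INV_ev_id (F := F), ← hz]
    rfl
  have h7 := INV_int (F := F) Y hINT M.natDegree P
  rw [← h6] at h7 ⊢
  exact INV_pol hTRX z z.2 h7

end Pool.RN
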