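import Pool.Agent.H48.RN.Stmts2

/-!
# Project RN, module PTH: the points over `x1` form one orbit
-/

set_option autoImplicit false
set_option linter.unusedSectionVars false
set_option linter.unusedVariables false

namespace Pool.RN

open Polynomial

variable {F k : Type} [Field F] [Fintype F] [Field k] [Algebra F k]

theorem PTH_ev_some {L : Type} [Field L] [Algebra k L] (m : ℕ) (x : L) (Y : L[X]) (i : Fin m) :
    ev (k := k) m x Y (MvPolynomial.X (some i)) = Y.coeff i := by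
  unfold ev
  rw [MvPolynomial.aeval_X]
  rfl

theorem PTH_ev_none {L : Type} [Field L] [Algebra k L] (m : ℕ) (x : L) (Y : L[X]) :
    ev (k := k) m x Y (MvPolynomial.X none) = x := by
  unfold ev
  rw [MvPolynomial.aeval_X]
  rfl

theorem PTH_ev_pol {L : Type} [Field L] [Algebra k L] (m : ℕ) (x : L) (Y : L[X]) (p : k[X]) :
    ev (k := k) m x Y (aeval (MvPolynomial.X none) p) = aeval x p := by
  rw [← Polynomial.aeval_algHom_apply, PTH_ev_none]

theorem PTH_coord {M Y1 Y2 : k[X]} (h1 : Y1.degree < M.degree) (h2 : Y2.degree < M.degree)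
    (hne : Y1 ≠ Y2) : ∃ i : Fin M.natDegree, Y1.coeff i ≠ Y2.coeff i := by
  by_contra hcon
  push Not at hcon
  apply hne
  have hM : M ≠ 0 := by
    rintro rfl
    simp at h1
  ext i
  by_cases hi : i < M.natDegree
  · exact hcon ⟨i, hi⟩
  · have hle : M.degree ≤ i := by
      rw [degree_eq_natDegree hM]
      exact_mod_cast not_lt.1 hi
    rw [coeff_eq_zero_of_degree_lt (h1.trans_le hle), coeff_eq_zero_of_degree_lt (h2.trans_le hle)]

/-- separation of a point from finitely many other points -/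
theorem PTH_sep (m : ℕ) (x1 : k) (b : k[X]) (S : Finset (k[X]))
    (h : ∀ a ∈ S, ∃ i : Fin m, a.coeff i ≠ b.coeff i) :
    ∃ P : PP k m, ev m x1 b P = 0 ∧ ∀ a ∈ S, ev m x1 a P ≠ 0 := by
  classical
  choose f hf using h
  refine ⟨1 - ∏ a ∈ S.attach,
    MvPolynomial.C ((b.coeff (f a.1 a.2) - a.1.coeff (f a.1 a.2))⁻¹) *
    (MvPolynomial.X (some (f a.1 a.2)) - MvPolynomial.C (a.1.coeff (f a.1 a.2))), ?_, ?_⟩
  · rw [map_sub, map_one, map_prod, sub_eq_zero]
    symm
    apply Finset.prod_eq_one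
    intro a ha
    have h1 : b.coeff (f a.1 a.2) - a.1.coeff (f a.1 a.2) ≠ 0 := sub_ne_zero.2 (hf a.1 a.2).symm
    have h2 : ∀ c : k, ev (k := k) m x1 b (MvPolynomial.C c) = c := fun c => by
      unfold ev
      rw [MvPolynomial.aeval_C]
      rfl
    rw [map_mul, map_sub, PTH_ev_some, h2, h2, inv_mul_cancel₀ h1]
  · intro a ha
    rw [map_sub, map_one, map_prod, Finset.prod_eq_zero (Finset.mem_attach S ⟨a, ha⟩), sub_zero]
    · exact one_ne_zero
    · have h2 : ∀ c : k, ev (k := k) m x1 a (MvPolynomial.C c) = c := fun c => by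
        unfold ev
        rw [MvPolynomial.aeval_C]
        rfl
      rw [map_mul, map_sub, PTH_ev_some, h2, h2, sub_self, mul_zero]

theorem PTH_perm (M : F[X]) (Y : (EE k)[X]) (hM : M.Monic) (hGRP : S_GRP M Y) (g' : F[X])
    (hg' : g' ∈ HH M Y) {R : Type} [CommMonoid R] (f : F[X] → R) :
    ∏ g ∈ HH M Y, f ((g * g') %ₘ M) = ∏ g ∈ HH M Y, f g := by
  classical
  obtain ⟨-, -, hmul, -, -⟩ := hGRP
  have hinj : Set.InjOn (fun g : F[X] => (g * g') %ₘ M) (HH M Y : Set F[X]) := by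
    intro g1 h1 g2 h2 h12
    have h1' := (mem_HH.1 (Finset.mem_coe.1 h1)).1
    have h2' := (mem_HH.1 (Finset.mem_coe.1 h2)).1
    have hc := (mem_HH.1 hg').2.1
    have h3 : M ∣ (g1 - g2) * g' := by
      have h4 : (g1 * g') %ₘ M = (g2 * g') %ₘ M := h12
      have e1 := modByMonic_add_div (g1 * g') M
      have e2 := modByMonic_add_div (g2 * g') M
      refine ⟨(g1 * g') /ₘ M - (g2 * g') /ₘ M, ?_⟩
      linear_combination e2 - e1 + h4
    have h5 : M ∣ g1 - g2 := hc.symm.dvd_of_dvd_mul_right h3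
    have h6 : (g1 - g2).degree < M.degree := lt_of_le_of_lt (degree_sub_le _ _) (max_lt h1' h2')
    exact sub_eq_zero.1 (eq_zero_of_dvd_of_degree_lt h5 h6)
  have himg : (HH M Y).image (fun g : F[X] => (g * g') %ₘ M) = HH M Y := by
    apply Finset.eq_of_subset_of_card_le
    · intro y hy
      obtain ⟨g, hg, rfl⟩ := Finset.mem_image.1 hy
      exact hmul g hg g' hg'
    · rw [Finset.card_image_of_injOn hinj]
  calc ∏ g ∈ HH M Y, f ((g * g') %ₘ M)
      = ∏ g ∈ (HH M Y).image (fun g : F[X] => (g * g') %ₘ M), f g :=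
        (Finset.prod_image hinj).symm
    _ = ∏ g ∈ HH M Y, f g := by rw [himg]

theorem s_PTH {F k : Type} [Field F] [Fintype F] [Field k] [Algebra F k] [IsAlgClosed k]
    [Algebra.IsAlgebraic F k] (M : F[X]) (Y : (EE k)[X]) (hM : M.Monic) (hm : 1 ≤ M.natDegree) (hY : Good M Y)
    (hPTU : S_PTU M Y) (hPTG : S_PTG M Y) (hTOR : S_TOR F) (hACT : S_ACT F) (hEVA : S_EVA F k) (hGRP : S_GRP M Y) (hINV : S_INV M Y) (hTRX : S_TRX F k) : S_PTH M Y := by
  classical
  intro x1 Y1 Y2 hx1 hp1 hp2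
  by_contra hcon
  push Not at hcon
  have hs1 := hPTU x1 Y1 hp1 hx1
  have hs2 := hPTU x1 Y2 hp2 hx1
  have hdM : ((M.map (algebraMap F k)).natDegree) = M.natDegree := natDegree_map _
  have hdM2 : ((M.map (algebraMap F k)).degree) = M.degree := degree_map _ _
  -- the separating polynomial
  obtain ⟨P, hP0, hP1⟩ := PTH_sep M.natDegree x1 Y2 ((HH M Y).image fun g => act M g Y1) (by
    intro a ha
    obtain ⟨g, hg, rfl⟩ := Finset.mem_image.1 ha
    have h1 := (hEVA M hM hm k x1 Y1 g hp1.1).1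
    have h2 := PTH_coord (M := M.map (algebraMap F k)) (by rw [hdM2]; exact h1)
      (by rw [hdM2]; exact hp2.1) (hcon g hg).symm
    obtain ⟨i, hi⟩ := h2
    exact ⟨⟨i, by rw [← hdM]; exact i.2⟩, hi⟩)
  have hP1' : ∀ g ∈ HH M Y, ev M.natDegree x1 (act M g Y1) P ≠ 0 := fun g hg =>
    hP1 _ (Finset.mem_image_of_mem _ hg)
  -- the norm
  set Q : PP k M.natDegree := ∏ g ∈ HH M Y, sub k M g P with hQ
  have hsol := hY.sol
  obtain ⟨hA1, hA2, hA3, hA4⟩ := hACT M hM hm (EE k) (xx F k) Y hsol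
  have hmod : ∀ g : F[X], act M (g %ₘ M) Y = act M g Y := by
    intro g
    rw [hA3]
    refine ⟨-(g /ₘ M), ?_⟩
    have e := modByMonic_add_div g M
    linear_combination e
  have hevQ : ∀ g' ∈ HH M Y, ev M.natDegree (xx F k) (act M g' Y) Q =
      ∏ g ∈ HH M Y, ev M.natDegree (xx F k) (act M ((g * g') %ₘ M) Y) P := by
    intro g' hg'
    rw [hQ, map_prod]
    refine Finset.prod_congr rfl fun g hg => ?_
    have h1 := (hEVA M hM hm (EE k) (xx F k) Y g' hsol.deg).1
    rw [← (hEVA M hM hm (EE k) (xx F k) (act M g' Y) g h1).2.2 P, hA2, hmod]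
  have hevQ' : ev M.natDegree (xx F k) Y Q =
      ∏ g ∈ HH M Y, ev M.natDegree (xx F k) (act M g Y) P := by
    rw [hQ, map_prod]
    refine Finset.prod_congr rfl fun g hg => ?_
    rw [← (hEVA M hM hm (EE k) (xx F k) Y g hsol.deg).2.2 P]
  obtain ⟨p, hp⟩ := hINV Q (by
    intro g' hg'
    rw [hevQ g' hg', hevQ']
    exact PTH_perm M Y hM hGRP g' hg' (fun g => ev M.natDegree (xx F k) (act M g Y) P))
  -- the relation
  have hrel : ev M.natDegree (xx F k) Y (Q - aeval (MvPolynomial.X none) p) = 0 := by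
    rw [map_sub, PTH_ev_pol, hp, sub_self]
  have hr1 := hp1.2 _ hrel
  have hr2 := hp2.2 _ hrel
  rw [map_sub, PTH_ev_pol, sub_eq_zero] at hr1 hr2
  have hn1 : ev M.natDegree x1 Y1 Q ≠ 0 := by
    rw [hQ, map_prod]
    apply Finset.prod_ne_zero_iff.2
    intro g hg
    rw [← (hEVA M hM hm k x1 Y1 g hp1.1).2.2 P]
    exact hP1' g hg
  have hn2 : ev M.natDegree x1 Y2 Q = 0 := by
    obtain ⟨g1, hg1, hg2⟩ := hGRP.2.1
    rw [hQ, map_prod]
    apply Finset.prod_eq_zero hg1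
    rw [← (hEVA M hM hm k x1 Y2 g1 hp2.1).2.2 P]
    obtain ⟨hB1, hB2, hB3, hB4⟩ := hACT M hM hm k x1 Y2 hs2
    rw [(hB3 g1 1).2 hg2, hB4]
    exact hP0
  apply hn1
  rw [hr1, ← hr2]
  exact hn2

end Pool.RN
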